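import Mathlib

set_option autoImplicit false

/-! Codes, maximal codes and synchronization delay. -/

namespace Pool.Agent.J4.H60.BSD

open Language Computability

variable {A : Type}

/-- `X` is a code: the empty word is not in `X`, and every word of `X∗` has exactly one
factorization as a product of words of `X`. -/
def IsCode (X : Language A) : Prop :=
  [] ∉ X ∧ ∀ l₁ l₂ : List (List A), (∀ x ∈ l₁, x ∈ X) → (∀ x ∈ l₂, x ∈ X) →
    l₁.flatten = l₂.flatten → l₁ = l₂

/-- `X` is a maximal code: a code which is not properly contained in any other code over `A`. -/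
def IsMaximalCode (X : Language A) : Prop :=
  IsCode X ∧ ∀ Z : Language A, IsCode Z → X ≤ Z → Z = X

/-- `X` is complete: every word is a factor of a word of `X∗`. -/
def IsComplete (X : Language A) : Prop :=
  ∀ w : List A, ∃ u v : List A, u ++ w ++ v ∈ X∗

/-- `X` has synchronization delay `d` (the definition of the problem file): for all
`x, y ∈ X^d` and all words `u, v`, if `u x y v ∈ X∗` then `u x ∈ X∗`. -/
def HasSyncDelay (d : ℕ) (X : Language A) : Prop :=
  ∀ x ∈ X ^ d, ∀ y ∈ X ^ d, ∀ u v : List A, u ++ x ++ y ++ v ∈ X∗ → u ++ x ∈ X∗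

/-- `X` has two-sided synchronization delay `d`: for all `x, y ∈ X^d` and all words `u, v`, if
`u x y v ∈ X∗` then `u x ∈ X∗` and `y v ∈ X∗`. -/
def HasTwoSidedSyncDelay (d : ℕ) (X : Language A) : Prop :=
  ∀ x ∈ X ^ d, ∀ y ∈ X ^ d, ∀ u v : List A, u ++ x ++ y ++ v ∈ X∗ → u ++ x ∈ X∗ ∧ y ++ v ∈ X∗

end Pool.Agent.J4.H60.BSD
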