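import Mathlib

set_option autoImplicit false

/-! Closure properties of regular languages, by the Myhill-Nerode theorem. -/

namespace Pool.Agent.J4.H60.BSD

open Language Computability

variable {A : Type}

theorem isRegular_mul {L1 L2 : Language A} (h1 : L1.IsRegular) (h2 : L2.IsRegular) :
    (L1 * L2).IsRegular := by
  apply IsRegular.of_finite_range_leftQuotient
  have f1 := h1.finite_range_leftQuotient
  have f2 := h2.finite_range_leftQuotient
  refine ((f1.prod f2.powerset).image (fun p : Language A × Set (Language A) =>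
    (p.1 * L2 + (show Language A from {t | ∃ S ∈ p.2, t ∈ S})))).subset ?_
  rintro _ ⟨w, rfl⟩
  refine ⟨(L1.leftQuotient w, {S | ∃ a b, w = a ++ b ∧ a ∈ L1 ∧ S = L2.leftQuotient b}),
    ⟨⟨w, rfl⟩, ?_⟩, ?_⟩
  · rintro _ ⟨a, b, _, _, rfl⟩
    exact ⟨b, rfl⟩
  · apply Language.ext
    intro t
    constructor
    · rintro (h | h)
      · obtain ⟨a, ha, b, hb, rfl⟩ := mem_mul.1 h
        exact mem_mul.2 ⟨w ++ a, ha, b, hb, by simp⟩
      · obtain ⟨S, ⟨a, b, rfl, ha, rfl⟩, ht⟩ := h
        exact mem_mul.2 ⟨a, ha, b ++ t, ht, by simp⟩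
    · intro h
      obtain ⟨a, ha, b, hb, e⟩ := mem_mul.1 h
      rcases List.append_eq_append_iff.1 e with ⟨c, rfl, rfl⟩ | ⟨c, rfl, rfl⟩
      · right
        exact ⟨_, ⟨a, c, rfl, ha, rfl⟩, hb⟩
      · left
        exact mem_mul.2 ⟨c, ha, b, hb, rfl⟩

theorem append_mem_kstar {L : Language A} {a b : List A} (ha : a ∈ L∗) (hb : b ∈ L∗) :
    a ++ b ∈ L∗ := by
  obtain ⟨l, rfl, hl⟩ := mem_kstar.1 ha
  obtain ⟨m, rfl, hm⟩ := mem_kstar.1 hb
  exact mem_kstar.2 ⟨l ++ m, by simp, fun y hy => (List.mem_append.1 hy).elim (hl y) (hm y)⟩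

theorem mem_kstar_of_mem {L : Language A} {a : List A} (ha : a ∈ L) : a ∈ L∗ :=
  mem_kstar.2 ⟨[a], by simp, fun y hy => by rw [List.mem_singleton.1 hy]; exact ha⟩

theorem kstar_split {L : Language A} (Ls : List (List A)) (h : ∀ y ∈ Ls, y ∈ L) :
    ∀ (w t : List A), Ls.flatten = w ++ t → (w ∈ L∗ ∧ t ∈ L∗) ∨
      ∃ a b t1 t2, w = a ++ b ∧ a ∈ L∗ ∧ t = t1 ++ t2 ∧ b ++ t1 ∈ L ∧ t2 ∈ L∗ := by
  induction Ls with
  | nil =>
    intro w t e
    left
    have : w = [] ∧ t = [] := by simpa using e.symm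
    rw [this.1, this.2]
    exact ⟨nil_mem_kstar _, nil_mem_kstar _⟩
  | cons x Ls ih =>
    intro w t e
    have hx : x ∈ L := h x (by simp)
    have hLs : ∀ y ∈ Ls, y ∈ L := fun y hy => h y (by simp [hy])
    rw [List.flatten_cons] at e
    rcases List.append_eq_append_iff.1 e with ⟨c, rfl, hc⟩ | ⟨c, rfl, hc⟩
    · rcases ih hLs c t hc with ⟨h1, h2⟩ | ⟨a, b, t1, t2, rfl, h2, h3, h4, h5⟩
      · left
        exact ⟨append_mem_kstar (mem_kstar_of_mem hx) h1, h2⟩
      · right
        exact ⟨x ++ a, b, t1, t2, by simp, append_mem_kstar (mem_kstar_of_mem hx) h2, h3, h4, h5⟩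
    · right
      exact ⟨[], w, c, Ls.flatten, by simp, nil_mem_kstar _, hc, hx, join_mem_kstar hLs⟩

theorem isRegular_kstar {L : Language A} (h : L.IsRegular) : (L∗).IsRegular := by
  apply IsRegular.of_finite_range_leftQuotient
  have f := h.finite_range_leftQuotient
  have f2 : ({0, L∗} : Set (Language A)).Finite := Set.toFinite _
  refine ((f2.prod f.powerset).image (fun p : Language A × Set (Language A) =>
    (p.1 + (show Language A from {t | ∃ S ∈ p.2, t ∈ S * L∗})))).subset ?_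
  rintro _ ⟨w, rfl⟩
  by_cases hw : w ∈ L∗
  · refine ⟨(L∗, {S | ∃ a b, w = a ++ b ∧ a ∈ L∗ ∧ S = L.leftQuotient b}),
      ⟨by simp, ?_⟩, ?_⟩
    · rintro _ ⟨a, b, _, _, rfl⟩
      exact ⟨b, rfl⟩
    · apply Language.ext
      intro t
      constructor
      · rintro (h | h)
        · exact append_mem_kstar hw h
        · obtain ⟨S, ⟨a, b, rfl, ha, rfl⟩, ht⟩ := h
          obtain ⟨c, hc, d, hd, rfl⟩ := mem_mul.1 ht
          have : a ++ ((b ++ c) ++ d) ∈ L∗ :=
            append_mem_kstar ha (append_mem_kstar (mem_kstar_of_mem hc) hd)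
          change (a ++ b) ++ (c ++ d) ∈ L∗
          simpa using this
      · intro h
        have h' : w ++ t ∈ L∗ := h
        obtain ⟨Ls, e, hLs⟩ := mem_kstar.1 h'
        rcases kstar_split Ls hLs w t e.symm with ⟨_, h2⟩ | ⟨a, b, t1, t2, h1, h2, h3, h4, h5⟩
        · left; exact h2
        · right
          exact ⟨_, ⟨a, b, h1, h2, rfl⟩, mem_mul.2 ⟨t1, h4, t2, h5, h3.symm⟩⟩
  · refine ⟨(0, {S | ∃ a b, w = a ++ b ∧ a ∈ L∗ ∧ S = L.leftQuotient b}),
      ⟨by simp, ?_⟩, ?_⟩
    · rintro _ ⟨a, b, _, _, rfl⟩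
      exact ⟨b, rfl⟩
    · apply Language.ext
      intro t
      constructor
      · rintro (h | h)
        · exact absurd h (Language.notMem_zero _)
        · obtain ⟨S, ⟨a, b, rfl, ha, rfl⟩, ht⟩ := h
          obtain ⟨c, hc, d, hd, rfl⟩ := mem_mul.1 ht
          have : a ++ ((b ++ c) ++ d) ∈ L∗ :=
            append_mem_kstar ha (append_mem_kstar (mem_kstar_of_mem hc) hd)
          change (a ++ b) ++ (c ++ d) ∈ L∗
          simpa using this
      · intro h
        have h' : w ++ t ∈ L∗ := h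
        obtain ⟨Ls, e, hLs⟩ := mem_kstar.1 h'
        rcases kstar_split Ls hLs w t e.symm with ⟨h1, _⟩ | ⟨a, b, t1, t2, h1, h2, h3, h4, h5⟩
        · exact absurd h1 hw
        · right
          exact ⟨_, ⟨a, b, h1, h2, rfl⟩, mem_mul.2 ⟨t1, h4, t2, h5, h3.symm⟩⟩

theorem isRegular_top : (⊤ : Language A).IsRegular := by
  apply IsRegular.of_finite_range_leftQuotient
  refine (Set.finite_singleton (⊤ : Language A)).subset ?_
  rintro _ ⟨w, rfl⟩
  rfl

theorem isRegular_singleton (y : List A) : (show Language A from {y}).IsRegular := by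
  apply IsRegular.of_finite_range_leftQuotient
  have : (insert (0 : Language A) ((fun n => (show Language A from {y.drop n})) ''
      (Set.Iic y.length))).Finite := ((Set.finite_Iic _).image _).insert _
  refine this.subset ?_
  rintro _ ⟨w, rfl⟩
  by_cases hw : w <+: y
  · right
    obtain ⟨t, rfl⟩ := hw
    refine ⟨w.length, by simp, ?_⟩
    apply Language.ext
    intro s
    change s ∈ ({List.drop w.length (w ++ t)} : Set (List A)) ↔ w ++ s ∈ ({w ++ t} : Set (List A))
    simp
  · left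
    apply Language.ext
    intro s
    constructor
    · intro h
      exact absurd ⟨s, h⟩ hw
    · intro h
      exact absurd h (Language.notMem_zero _)

theorem isRegular_pow {L : Language A} (h : L.IsRegular) (n : ℕ) : (L ^ n).IsRegular := by
  induction n with
  | zero => rw [pow_zero]; exact isRegular_singleton []
  | succ n ih => rw [pow_succ]; exact isRegular_mul ih h

end Pool.Agent.J4.H60.BSD
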