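import Mathlib
import Pool.Agent.J4.H60.BSD.Defs
import Pool.Agent.J4.H60.BSD.Reg

set_option autoImplicit false

/-! Free submonoids and their bases; words with a prefix or a suffix in `X^k`. -/

namespace Pool.Agent.J4.H60.BSD

open Language Computability

variable {A : Type}

/-! ### Powers -/

theorem pow_append {X : Language A} {m n : ℕ} {a b : List A} (ha : a ∈ X ^ m) (hb : b ∈ X ^ n) :
    a ++ b ∈ X ^ (m + n) := by
  rw [pow_add]; exact append_mem_mul ha hb

theorem pow_split {X : Language A} {m n : ℕ} {w : List A} (h : w ∈ X ^ (m + n)) :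
    ∃ a ∈ X ^ m, ∃ b ∈ X ^ n, w = a ++ b := by
  rw [pow_add] at h
  obtain ⟨a, ha, b, hb, e⟩ := mem_mul.1 h
  exact ⟨a, ha, b, hb, e.symm⟩

theorem pow_kstar {X : Language A} {n : ℕ} {w : List A} (h : w ∈ X ^ n) : w ∈ X∗ := by
  obtain ⟨S, e, _, h2⟩ := mem_pow.1 h
  exact mem_kstar.2 ⟨S, e, h2⟩

theorem kstar_pow {X : Language A} {w : List A} (h : w ∈ X∗) : ∃ n, w ∈ X ^ n := by
  obtain ⟨S, e, h2⟩ := mem_kstar.1 h
  exact ⟨S.length, mem_pow.2 ⟨S, e, rfl, h2⟩⟩

theorem mem_pow_one {X : Language A} {w : List A} (h : w ∈ X) : w ∈ X ^ 1 := by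
  rw [pow_one]; exact h

theorem pow_nonempty {X : Language A} {x : List A} (h : x ∈ X) (n : ℕ) : ∃ c, c ∈ X ^ n := by
  induction n with
  | zero => exact ⟨[], by rw [pow_zero]; exact nil_mem_one⟩
  | succ n ih =>
    obtain ⟨c, hc⟩ := ih
    exact ⟨c ++ x, pow_append hc (mem_pow_one h)⟩

/-- `w` has a suffix in `X^k` -/
def Sf (X : Language A) (k : ℕ) (w : List A) : Prop := ∃ u x, x ∈ X ^ k ∧ w = u ++ x

/-- `w` has a prefix in `X^k` -/
def Pf (X : Language A) (k : ℕ) (w : List A) : Prop := ∃ x v, x ∈ X ^ k ∧ w = x ++ v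

theorem Sf.append_left {X : Language A} {k : ℕ} {w : List A} (h : Sf X k w) (a : List A) :
    Sf X k (a ++ w) := by
  obtain ⟨u, x, hx, rfl⟩ := h
  exact ⟨a ++ u, x, hx, by simp⟩

theorem Pf.append_right {X : Language A} {k : ℕ} {w : List A} (h : Pf X k w) (a : List A) :
    Pf X k (w ++ a) := by
  obtain ⟨x, v, hx, rfl⟩ := h
  exact ⟨x, v ++ a, hx, by simp⟩

theorem Sf.mono {X : Language A} {k m : ℕ} (hkm : k ≤ m) {w : List A} (h : Sf X m w) :
    Sf X k w := by
  obtain ⟨u, x, hx, rfl⟩ := h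
  obtain ⟨j, rfl⟩ := Nat.exists_eq_add_of_le' hkm
  obtain ⟨a, _, b, hb, rfl⟩ := pow_split hx
  exact ⟨u ++ a, b, hb, by simp⟩

theorem Pf.mono {X : Language A} {k m : ℕ} (hkm : k ≤ m) {w : List A} (h : Pf X m w) :
    Pf X k w := by
  obtain ⟨x, v, hx, rfl⟩ := h
  obtain ⟨j, rfl⟩ := Nat.exists_eq_add_of_le hkm
  obtain ⟨a, ha, b, _, rfl⟩ := pow_split hx
  exact ⟨a, b ++ v, ha, by simp⟩

theorem Sf.append_pow {X : Language A} {k m : ℕ} {w z : List A} (h : Sf X k w) (hz : z ∈ X ^ m) :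
    Sf X (k + m) (w ++ z) := by
  obtain ⟨u, x, hx, rfl⟩ := h
  exact ⟨u, x ++ z, pow_append hx hz, by simp⟩

theorem Pf.append_pow {X : Language A} {k m : ℕ} {w z : List A} (h : Pf X k w) (hz : z ∈ X ^ m) :
    Pf X (m + k) (z ++ w) := by
  obtain ⟨x, v, hx, rfl⟩ := h
  exact ⟨z ++ x, v, pow_append hz hx, by simp⟩

theorem Sf.append_kstar {X : Language A} {k : ℕ} {w z : List A} (h : Sf X k w) (hz : z ∈ X∗) :
    Sf X k (w ++ z) := by
  obtain ⟨n, hn⟩ := kstar_pow hz
  exact (h.append_pow hn).mono (by omega)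

theorem Pf.append_kstar {X : Language A} {k : ℕ} {w z : List A} (h : Pf X k w) (hz : z ∈ X∗) :
    Pf X k (z ++ w) := by
  obtain ⟨n, hn⟩ := kstar_pow hz
  exact (h.append_pow hn).mono (by omega)

theorem sf_of_pow {X : Language A} {k : ℕ} {w : List A} (h : w ∈ X ^ k) : Sf X k w :=
  ⟨[], w, h, rfl⟩

theorem pf_of_pow {X : Language A} {k : ℕ} {w : List A} (h : w ∈ X ^ k) : Pf X k w :=
  ⟨w, [], h, by simp⟩

theorem sync_use {X : Language A} {d : ℕ} (hs : HasSyncDelay d X) {p q : List A}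
    (hp : Sf X d p) (hq : Pf X d q) (h : p ++ q ∈ X∗) : p ∈ X∗ := by
  obtain ⟨u, x, hx, rfl⟩ := hp
  obtain ⟨y, v, hy, rfl⟩ := hq
  exact hs x hx y hy u v (by simpa using h)

theorem sync_use_two {X : Language A} {d : ℕ} (hs : HasTwoSidedSyncDelay d X) {p q : List A}
    (hp : Sf X d p) (hq : Pf X d q) (h : p ++ q ∈ X∗) : p ∈ X∗ ∧ q ∈ X∗ := by
  obtain ⟨u, x, hx, rfl⟩ := hp
  obtain ⟨y, v, hy, rfl⟩ := hq
  exact hs x hx y hy u v (by simpa using h)

/-- `X∗` is stable if `X` is a code. -/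
theorem stab_kstar {X : Language A} (hX : IsCode X) {u w v : List A} (h1 : u ∈ X∗)
    (h2 : u ++ w ∈ X∗) (h3 : w ++ v ∈ X∗) (h4 : v ∈ X∗) : w ∈ X∗ := by
  obtain ⟨L1, e1, H1⟩ := mem_kstar.1 h1
  obtain ⟨L2, e2, H2⟩ := mem_kstar.1 h2
  obtain ⟨L3, e3, H3⟩ := mem_kstar.1 h3
  obtain ⟨L4, e4, H4⟩ := mem_kstar.1 h4
  have e : (L2 ++ L4).flatten = (L1 ++ L3).flatten := by
    rw [List.flatten_append, List.flatten_append, ← e1, ← e2, ← e3, ← e4]
    simp
  have e' := hX.2 _ _ (fun x hx => (List.mem_append.1 hx).elim (H2 x) (H4 x))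
    (fun x hx => (List.mem_append.1 hx).elim (H1 x) (H3 x)) e
  rcases List.append_eq_append_iff.1 e' with ⟨c, hc, _⟩ | ⟨c, hc, _⟩
  · rw [hc, List.flatten_append, ← e2] at e1
    have hlen := congrArg List.length e1
    simp only [List.length_append] at hlen
    have : w.length = 0 := by omega
    rw [List.eq_nil_of_length_eq_zero this]
    exact nil_mem_kstar _
  · rw [hc, List.flatten_append, ← e1] at e2
    have : w = c.flatten := List.append_cancel_left e2
    rw [this]
    exact mem_kstar.2 ⟨c, rfl, fun y hy => H2 y (by rw [hc]; simp [hy])⟩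

theorem eq_of_pow {X : Language A} (hX : IsCode X) {m n : ℕ} {w : List A} (h1 : w ∈ X ^ m)
    (h2 : w ∈ X ^ n) : m = n := by
  obtain ⟨S, e, l1, H1⟩ := mem_pow.1 h1
  obtain ⟨T, e', l2, H2⟩ := mem_pow.1 h2
  have := hX.2 S T H1 H2 (e.symm.trans e')
  rw [← l1, ← l2, this]

/-- length of words in powers -/
theorem le_length_of_pow {X : Language A} (hX : [] ∉ X) {n : ℕ} {w : List A} (h : w ∈ X ^ n) :
    n ≤ w.length := by
  induction n generalizing w with
  | zero => exact Nat.zero_le _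
  | succ n ih =>
    obtain ⟨a, ha, b, hb, rfl⟩ := pow_split h
    rw [pow_one] at hb
    have : b ≠ [] := fun h => hX (h ▸ hb)
    have := List.length_pos_iff.2 this
    have := ih ha
    rw [List.length_append]
    omega

/-! ### Free submonoids and their bases -/

/-- `M` is a stable submonoid. -/
structure FreeSub (M : Language A) : Prop where
  nil : [] ∈ M
  mul : ∀ a b, a ∈ M → b ∈ M → a ++ b ∈ M
  stab : ∀ u w v, u ∈ M → u ++ w ∈ M → w ++ v ∈ M → v ∈ M → w ∈ M

/-- the base of `M` -/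
def Base (M : Language A) : Language A :=
  {w | w ∈ M ∧ w ≠ [] ∧ ∀ a b, a ∈ M → b ∈ M → a ≠ [] → b ≠ [] → w ≠ a ++ b}

theorem base_sub {M : Language A} (hM : FreeSub M) {w : List A} (h : w ∈ (Base M)∗) : w ∈ M := by
  obtain ⟨L, rfl, hL⟩ := mem_kstar.1 h
  induction L with
  | nil => exact hM.nil
  | cons x L ih =>
    rw [List.flatten_cons]
    have hL' : ∀ y ∈ L, y ∈ Base M := fun y hy => hL y (by simp [hy])
    exact hM.mul _ _ (hL x (by simp)).1 (ih hL' (join_mem_kstar hL'))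

theorem base_gen {M : Language A} : ∀ (n : ℕ) (w : List A), w.length ≤ n →
    w ∈ M → w ∈ (Base M)∗ := by
  intro n
  induction n with
  | zero =>
    intro w hw _
    rw [List.eq_nil_of_length_eq_zero (Nat.le_zero.1 hw)]
    exact nil_mem_kstar _
  | succ n ih =>
    intro w hw h
    by_cases hb : w ∈ Base M
    · exact mem_kstar_of_mem hb
    · by_cases hn : w = []
      · rw [hn]; exact nil_mem_kstar _
      · have : ∃ a b, a ∈ M ∧ b ∈ M ∧ a ≠ [] ∧ b ≠ [] ∧ w = a ++ b := by
          by_contra hcon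
          apply hb
          refine ⟨h, hn, fun a b ha hb' ha' hb'' e => hcon ⟨a, b, ha, hb', ha', hb'', e⟩⟩
        obtain ⟨a, b, ha, hb', ha', hb'', rfl⟩ := this
        have := List.length_pos_iff.2 ha'
        have := List.length_pos_iff.2 hb''
        rw [List.length_append] at hw
        exact append_mem_kstar (ih a (by omega) ha) (ih b (by omega) hb')

theorem mem_base_kstar {M : Language A} (hM : FreeSub M) {w : List A} :
    w ∈ (Base M)∗ ↔ w ∈ M := ⟨base_sub hM, base_gen w.length w le_rfl⟩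

theorem base_code {M : Language A} (hM : FreeSub M) : IsCode (Base M) := by
  refine ⟨fun h => h.2.1 rfl, ?_⟩
  intro l₁
  induction l₁ with
  | nil =>
    intro l₂ _ h2 e
    cases l₂ with
    | nil => rfl
    | cons y l₂ =>
      exfalso
      have : y = [] := by
        have := e.symm
        simp only [List.flatten_nil, List.flatten_cons] at this
        exact (List.append_eq_nil_iff.1 this).1
      exact (h2 y (by simp)).2.1 this
  | cons x l₁ ih =>
    intro l₂ h1 h2 e
    cases l₂ with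
    | nil =>
      exfalso
      have : x = [] := by
        have := e
        simp only [List.flatten_nil, List.flatten_cons] at this
        exact (List.append_eq_nil_iff.1 this).1
      exact (h1 x (by simp)).2.1 this
    | cons y l₂ =>
      have hx := h1 x (by simp)
      have hy := h2 y (by simp)
      have h1' : ∀ z ∈ l₁, z ∈ Base M := fun z hz => h1 z (by simp [hz])
      have h2' : ∀ z ∈ l₂, z ∈ Base M := fun z hz => h2 z (by simp [hz])
      have hr1 : l₁.flatten ∈ M := base_sub hM (join_mem_kstar h1')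
      have hr2 : l₂.flatten ∈ M := base_sub hM (join_mem_kstar h2')
      rw [List.flatten_cons, List.flatten_cons] at e
      have key : x = y := by
        rcases List.append_eq_append_iff.1 e with ⟨c, hc, hc'⟩ | ⟨c, hc, hc'⟩
        · -- y = x ++ c, l₁.flatten = c ++ l₂.flatten
          have hcM : c ∈ M := hM.stab x c l₂.flatten hx.1 (hc ▸ hy.1) (hc' ▸ hr1) hr2
          by_cases hc0 : c = []
          · rw [hc, hc0, List.append_nil]
          · exact absurd hc (hy.2.2 x c hx.1 hcM hx.2.1 hc0)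
        · have hcM : c ∈ M := hM.stab y c l₁.flatten hy.1 (hc ▸ hx.1) (hc' ▸ hr2) hr1
          by_cases hc0 : c = []
          · rw [hc, hc0, List.append_nil]
          · exact absurd hc (hx.2.2 y c hy.1 hcM hy.2.1 hc0)
      subst key
      rw [ih l₂ h1' h2' (List.append_cancel_left e)]

theorem base_regular {M : Language A} (h : M.IsRegular) : (Base M).IsRegular := by
  have h1 : (M ⊓ (show Language A from {([] : List A)})ᶜ).IsRegular :=
    h.inf (isRegular_singleton []).compl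
  have h2 := isRegular_mul h1 h1
  have h3 := h1.inf h2.compl
  convert h3 using 1
  apply Language.ext
  intro w
  constructor
  · rintro ⟨a, b, c⟩
    refine ⟨⟨a, b⟩, ?_⟩
    intro hw
    obtain ⟨p, ⟨hp1, hp2⟩, q, ⟨hq1, hq2⟩, e⟩ := mem_mul.1 hw
    exact c p q hp1 hq1 hp2 hq2 e.symm
  · rintro ⟨⟨a, b⟩, c⟩
    refine ⟨a, b, ?_⟩
    intro p q hp hq hp' hq' e
    apply c
    exact mem_mul.2 ⟨p, ⟨hp, hp'⟩, q, ⟨hq, hq'⟩, e.symm⟩

theorem base_maximal {M : Language A} (hM : FreeSub M) {m : List A} (hm : m ∈ M)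
    (h : ∀ z, m ++ z ++ m ∈ M) : IsMaximalCode (Base M) := by
  refine ⟨base_code hM, fun Z hZ hle => ?_⟩
  apply le_antisymm _ hle
  intro z hz
  obtain ⟨L1, e1, H1⟩ := mem_kstar.1 ((mem_base_kstar hM).2 hm)
  obtain ⟨L2, e2, H2⟩ := mem_kstar.1 ((mem_base_kstar hM).2 (h z))
  have e : (L1 ++ [z] ++ L1).flatten = L2.flatten := by
    rw [← e2, e1]; simp
  have := hZ.2 _ _ ?_ (fun x hx => hle (H2 x hx)) e
  · exact H2 z (by rw [← this]; simp)
  · intro x hx
    simp only [List.mem_append, List.mem_singleton] at hx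
    rcases hx with (hx | rfl) | hx
    · exact hle (H1 x hx)
    · exact hz
    · exact hle (H1 x hx)

theorem base_complete {M : Language A} (hM : FreeSub M) {m : List A}
    (h : ∀ z, m ++ z ++ m ∈ M) : IsComplete (Base M) :=
  fun w => ⟨m, m, (mem_base_kstar hM).2 (h w)⟩

end Pool.Agent.J4.H60.BSD
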