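import Mathlib
import Pool.Agent.J4.H60.BSD.Base

set_option autoImplicit false

/-! The completion for the one-sided definition of the synchronization delay. -/

namespace Pool.Agent.J4.H60.BSD

open Language Computability

variable {A : Type}

/-- Lemma A. -/
theorem lemA {X : Language A} (hX : IsCode X) {d : ℕ} (hs : HasSyncDelay d X) {U w v : List A}
    (h1 : Sf X d U) (h2 : Sf X d (U ++ w)) (h3 : w ++ v ∈ X∗) (h4 : v ∈ X∗) : w ∈ X∗ := by
  obtain ⟨b, r, hr, hU⟩ := h1
  obtain ⟨a, q, hq, hUw⟩ := h2
  have hrs : r ∈ X∗ := pow_kstar hr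
  have hqs : q ∈ X∗ := pow_kstar hq
  -- extend `v`
  have hv' : v ++ r ∈ X∗ := append_mem_kstar h4 hrs
  have hPv' : Pf X d (v ++ r) := (pf_of_pow hr).append_kstar h4
  have hwv' : w ++ (v ++ r) ∈ X∗ := by
    have := append_mem_kstar h3 hrs
    simpa using this
  have hPwv' : Pf X d (w ++ (v ++ r)) := by
    have := (pf_of_pow hr).append_kstar h3
    simpa using this
  generalize v ++ r = v' at hv' hPv' hwv' hPwv'
  rcases List.append_eq_append_iff.1 hUw with ⟨c, hc, hc'⟩ | ⟨c, hc, hc'⟩
  · -- `a = U ++ c`, `w = c ++ q`
    refine sync_use hs (p := w) (q := v') ?_ hPv' hwv'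
    rw [hc']
    exact (sf_of_pow hq).append_left c
  · -- `U = a ++ c`, `q = c ++ w`
    rw [hc] at hU
    rcases List.append_eq_append_iff.1 hU with ⟨e, he, he'⟩ | ⟨e, he, he'⟩
    · -- `b = a ++ e`, `c = e ++ r`
      have hq2 : q = (e ++ r) ++ w := by rw [hc', he']
      have h5 : e ++ r ∈ X∗ := by
        refine sync_use hs (p := e ++ r) (q := w ++ v') ((sf_of_pow hr).append_left e) hPwv' ?_
        have : q ++ v' ∈ X∗ := append_mem_kstar hqs hv'
        rw [hq2] at this
        simpa using this
      exact stab_kstar hX h5 (hq2 ▸ hqs) hwv' hv'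
    · -- `a = b ++ e`, `r = e ++ c`
      have h5 : r ++ w ∈ X∗ := by
        refine sync_use hs (p := r ++ w) (q := v') ?_ hPv' ?_
        · rw [he', List.append_assoc, ← hc']
          exact (sf_of_pow hq).append_left e
        · have := append_mem_kstar hrs hwv'
          simpa using this
      exact stab_kstar hX hrs h5 hwv' hv'

/-- `y` has no proper nonempty border -/
def Unbordered (y : List A) : Prop := ∀ z p q, y = z ++ p → y = q ++ z → z = [] ∨ p = []

/-- `w` is not a factor of `X∗` -/
def NoFac (X : Language A) (w : List A) : Prop := ∀ u v, u ++ w ++ v ∉ X∗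

theorem NoFac.mono {X : Language A} {w : List A} (h : NoFac X w) (a b : List A) :
    NoFac X (a ++ w ++ b) := by
  intro u v hcon
  exact h (u ++ a) (b ++ v) (by simpa using hcon)

/-- occurrences of an unbordered word do not overlap -/
theorem firstOcc {y : List A} (hy : Unbordered y) {s t x' t' : List A}
    (hs : ∀ u v, s ≠ u ++ y ++ v) (hx : ∀ u v, x' ≠ u ++ y ++ v)
    (e : s ++ (y ++ t) = x' ++ (y ++ t')) : s = x' := by
  have key : ∀ {s t x' t' : List A}, (∀ u v, x' ≠ u ++ y ++ v) →
      ∀ c, x' = s ++ c → y ++ t = c ++ (y ++ t') → c = [] := by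
    intro s t x' t' hx c hc hc'
    rcases List.append_eq_append_iff.1 hc' with ⟨e, he, he'⟩ | ⟨e, he, he'⟩
    · -- `c = y ++ e`
      exact absurd (by rw [hc, he]; simp) (hx s e)
    · -- `y = c ++ e`, `y ++ t' = e ++ t`
      have hlen : e.length ≤ y.length := by rw [he]; simp
      have : ∃ f, y = e ++ f := by
        rcases List.append_eq_append_iff.1 he' with ⟨f, hf, _⟩ | ⟨f, hf, _⟩
        · have h1 := congrArg List.length hf
          rw [List.length_append] at h1
          have : f = [] := List.eq_nil_of_length_eq_zero (by omega)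
          rw [this, List.append_nil] at hf
          exact ⟨[], by rw [hf]; simp⟩
        · exact ⟨f, hf⟩
      obtain ⟨f, hf⟩ := this
      rcases hy e f c hf he with h | h
      · rw [h, List.append_nil] at he
        exact absurd (by rw [hc, he]; simp) (hx s [])
      · rw [h, List.append_nil] at hf
        have h1 := congrArg List.length he
        rw [List.length_append, hf] at h1
        exact List.eq_nil_of_length_eq_zero (by omega)
  rcases List.append_eq_append_iff.1 e with ⟨c, hc, hc'⟩ | ⟨c, hc, hc'⟩
  · rw [hc, key hx c hc hc', List.append_nil]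
  · rw [hc, key hs c hc hc', List.append_nil]

/-- The data of the construction. -/
structure Marker (X : Language A) (d D : ℕ) (y g1 g2 : List A) : Prop where
  code : IsCode X
  sync : HasSyncDelay d X
  hy : y = g1 ++ g2
  ng1 : NoFac X g1
  ng2 : NoFac X g2
  unb : Unbordered y
  hd : d ≤ D
  hD : y.length < D
  ne : ∃ x, x ∈ X

/-- `w ∈ X∗ y A∗` -/
def TT (X : Language A) (y : List A) (w : List A) : Prop := ∃ x t, x ∈ X∗ ∧ w = x ++ (y ++ t)

/-- The submonoid `X∗ ∪ (X∗ y A∗ ∩ A∗ X^D)`. -/
def M1 (X : Language A) (y : List A) (D : ℕ) : Language A :=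
  {w | w ∈ X∗ ∨ (TT X y w ∧ Sf X D w)}

namespace Marker

variable {X : Language A} {d D : ℕ} {y g1 g2 : List A}

theorem ny (h : Marker X d D y g1 g2) : NoFac X y := by
  have := h.ng1.mono [] g2
  rw [h.hy]; simpa using this

theorem star_no (h : Marker X d D y g1 g2) {s : List A} (hs : ∃ a b, a ++ s ++ b ∈ X∗) :
    ∀ u v, s ≠ u ++ y ++ v := by
  rintro u v rfl
  obtain ⟨a, b, hab⟩ := hs
  exact h.ny (a ++ u) (v ++ b) (by simpa using hab)

theorem star_no' (h : Marker X d D y g1 g2) {s : List A} (hs : s ∈ X∗) :
    ∀ u v, s ≠ u ++ y ++ v := h.star_no ⟨[], [], by simpa using hs⟩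

/-- first occurrence, for words in `X∗` -/
theorem occ (h : Marker X d D y g1 g2) {s t x' t' : List A}
    (hs : ∃ a b, a ++ s ++ b ∈ X∗) (hx : x' ∈ X∗)
    (e : s ++ (y ++ t) = x' ++ (y ++ t')) : s = x' :=
  firstOcc h.unb (h.star_no hs) (h.star_no' hx) e

theorem not_TT (h : Marker X d D y g1 g2) {s : List A} (hs : ∃ a b, a ++ s ++ b ∈ X∗) :
    ¬ TT X y s := by
  rintro ⟨x, t, _, rfl⟩
  exact h.star_no hs x t (by simp)

theorem c_sf (h : Marker X d D y g1 g2) {c m : List A} (hc : c ∈ X ^ D) (hm : m ∈ M1 X y D) :
    Sf X D (c ++ m) := by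
  rcases hm with hm | ⟨_, hm⟩
  · exact (sf_of_pow hc).append_kstar hm
  · exact hm.append_left c

theorem mulM (h : Marker X d D y g1 g2) {a b : List A} (ha : a ∈ M1 X y D)
    (hb : b ∈ M1 X y D) : a ++ b ∈ M1 X y D := by
  rcases ha with ha | ⟨⟨x, t, hx, rfl⟩, ha⟩
  · rcases hb with hb | ⟨⟨x, t, hx, rfl⟩, hb⟩
    · exact Or.inl (append_mem_kstar ha hb)
    · exact Or.inr ⟨⟨a ++ x, t, append_mem_kstar ha hx, by simp⟩, hb.append_left a⟩
  · right
    refine ⟨⟨x, t ++ b, hx, by simp⟩, ?_⟩
    rcases hb with hb | ⟨_, hb⟩
    · exact ha.append_kstar hb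
    · exact hb.append_left _

/-- a word of `M1` containing `y` as a factor is of the second kind -/
theorem snd_of_mem (h : Marker X d D y g1 g2) {s : List A} (hs : s ∈ M1 X y D)
    (u v : List A) (e : s = u ++ y ++ v) : TT X y s ∧ Sf X D s := by
  rcases hs with hs | hs
  · exact absurd e (h.star_no' hs u v)
  · exact hs

/-- If `w` contains `y` and `U ++ w` has a suffix in `X^D`, then so does `w`. -/
theorem sf_tail (h : Marker X d D y g1 g2) {U w : List A} (hU : Sf X D (U ++ w))
    (u v : List A) (e : w = u ++ y ++ v) : Sf X D w := by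
  obtain ⟨a, q, hq, e'⟩ := hU
  rcases List.append_eq_append_iff.1 e' with ⟨c, hc, hc'⟩ | ⟨c, hc, hc'⟩
  · exact ⟨c, q, hq, hc'⟩
  · exact absurd (by rw [hc', e]; simp) (h.star_no' (pow_kstar hq) (c ++ u) v)

/-- no cut strictly inside `y`, left part -/
theorem inside (h : Marker X d D y g1 g2) {z y1 y2 : List A} (hy : y = y1 ++ y2)
    (hz : Sf X D (z ++ y1)) : y1.length < g1.length := by
  by_contra hcon
  push Not at hcon
  obtain ⟨a, q, hq, e⟩ := hz
  -- g1 is a prefix of y1
  have hg : ∃ f, y1 = g1 ++ f := by
    have e2 : y1 ++ y2 = g1 ++ g2 := by rw [← hy, h.hy]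
    rcases List.append_eq_append_iff.1 e2 with ⟨c, hc, _⟩ | ⟨c, hc, _⟩
    · have h1 := congrArg List.length hc
      rw [List.length_append] at h1
      have : c = [] := List.eq_nil_of_length_eq_zero (by omega)
      rw [this, List.append_nil] at hc
      exact ⟨[], by rw [hc]; simp⟩
    · exact ⟨c, hc⟩
  obtain ⟨f, hf⟩ := hg
  have hql : D ≤ q.length := le_length_of_pow h.code.1 hq
  have hyl : y1.length ≤ y.length := by rw [hy]; simp
  rcases List.append_eq_append_iff.1 e with ⟨c, hc, hc'⟩ | ⟨c, hc, hc'⟩
  · have h1 := congrArg List.length hc'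
    rw [List.length_append] at h1
    have := h.hD
    omega
  · refine h.ng1 c f ?_
    have : q ∈ X∗ := pow_kstar hq
    rw [hc', hf] at this
    simpa using this

/-- no cut strictly inside `y`, right part -/
theorem inside' (h : Marker X d D y g1 g2) {y1 y2 t x' s : List A} (hy : y = y1 ++ y2)
    (hy1 : y1 ≠ []) (hy2 : y2 ≠ []) (hl : y1.length < g1.length)
    (hx : x' ∈ X∗) (e : y2 ++ t = x' ++ s) (hs : x'.length < y2.length → ∃ t', s = y ++ t') :
    False := by
  -- g2 is a suffix of y2
  have hg : ∃ f, y2 = f ++ g2 := by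
    have e2 : y1 ++ y2 = g1 ++ g2 := by rw [← hy, h.hy]
    rcases List.append_eq_append_iff.1 e2 with ⟨c, _, hc⟩ | ⟨c, hc, _⟩
    · exact ⟨c, hc⟩
    · have h1 := congrArg List.length hc
      rw [List.length_append] at h1
      omega
  obtain ⟨f, hf⟩ := hg
  by_cases hlt : x'.length < y2.length
  · obtain ⟨t', rfl⟩ := hs hlt
    -- overlap
    have e3 : [] ++ (y ++ t) = (y1 ++ x') ++ (y ++ t') := by
      rw [List.nil_append]
      conv_lhs => rw [hy]
      rw [List.append_assoc, e]
      simp
    rw [List.nil_append] at e3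
    -- `y1 ++ x'` is a proper prefix of `y`
    rcases List.append_eq_append_iff.1 e3 with ⟨c, hc, hc'⟩ | ⟨c, hc, hc'⟩
    · have h1 := congrArg List.length hc
      have h2 := congrArg List.length hy
      simp only [List.length_append] at h1 h2
      omega
    · -- `y = (y1 ++ x') ++ c`, `y ++ t' = c ++ t`
      have hcl : c.length ≤ y.length := by
        rw [hc]; simp only [List.length_append]; omega
      have : ∃ f, y = c ++ f := by
        rcases List.append_eq_append_iff.1 hc' with ⟨f, hf, _⟩ | ⟨f, hf, _⟩
        · have h1 := congrArg List.length hf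
          rw [List.length_append] at h1
          have : f = [] := List.eq_nil_of_length_eq_zero (by omega)
          rw [this, List.append_nil] at hf
          exact ⟨[], by rw [hf]; simp⟩
        · exact ⟨f, hf⟩
      obtain ⟨f', hf'⟩ := this
      rcases h.unb c f' _ hf' hc with h5 | h5
      · rw [h5, List.append_nil] at hc
        have h1 := congrArg List.length hc
        have h2 := congrArg List.length hy
        simp only [List.length_append] at h1 h2
        omega
      · rw [h5, List.append_nil] at hf'
        have h1 := congrArg List.length hc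
        rw [← hf'] at h1
        simp only [List.length_append] at h1
        have := List.length_pos_iff.2 hy1
        omega
  · -- `y2` is a prefix of `x'`
    rcases List.append_eq_append_iff.1 e with ⟨c, hc, _⟩ | ⟨c, hc, _⟩
    · refine h.ng2 f c ?_
      rw [← hf, ← hc]; exact hx
    · have h1 := congrArg List.length hc
      rw [List.length_append] at h1
      have : c = [] := List.eq_nil_of_length_eq_zero (by omega)
      rw [this, List.append_nil] at hc
      refine h.ng2 f [] ?_
      rw [← hf, hc, List.append_nil]; exact hx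

theorem stabM (h : Marker X d D y g1 g2) {u w v : List A} (h1 : u ∈ M1 X y D)
    (h2 : u ++ w ∈ M1 X y D) (h3 : w ++ v ∈ M1 X y D) (h4 : v ∈ M1 X y D) : w ∈ M1 X y D := by
  obtain ⟨x0, hx0⟩ := h.ne
  obtain ⟨c, hc⟩ := pow_nonempty hx0 D
  have hU : Sf X D (c ++ u) := h.c_sf hc h1
  have hUw : Sf X D (c ++ u ++ w) := by
    have := h.c_sf hc h2
    simpa using this
  have hUd := hU.mono h.hd
  have hUwd := hUw.mono h.hd
  rcases h3 with h3 | ⟨⟨x, t, hx, e⟩, h3⟩
  · -- `w v ∈ X∗`
    have hv : v ∈ X∗ := by
      rcases h4 with h4 | ⟨h4, _⟩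
      · exact h4
      · exact absurd h4 (h.not_TT ⟨w, [], by simpa using h3⟩)
    exact Or.inl (lemA h.code h.sync hUd hUwd h3 hv)
  · -- `w v = x y t`
    rcases List.append_eq_append_iff.1 e with ⟨s, hs, hs'⟩ | ⟨s, hs, hs'⟩
    · -- `x = w ++ s`, `v = s ++ y ++ t`
      rw [hs] at hx
      have h5 := h.snd_of_mem h4 s t (by rw [hs']; simp)
      obtain ⟨⟨x', t', hx', e'⟩, _⟩ := h5
      have : s = x' := h.occ ⟨w, [], by simpa using hx⟩ hx' (by rw [← hs', e'])
      rw [← this] at hx'
      exact Or.inl (lemA h.code h.sync hUd hUwd hx hx')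
    · -- `w = x ++ s`, `y ++ t = s ++ v`
      rcases List.append_eq_append_iff.1 hs' with ⟨p, hp, hp'⟩ | ⟨p, hp, hp'⟩
      · -- `s = y ++ p`
        right
        refine ⟨⟨x, p, hx, by rw [hs, hp]⟩, ?_⟩
        exact h.sf_tail hUw x p (by rw [hs, hp]; simp)
      · -- `y = s ++ p`, `v = p ++ t`
        by_cases hs0 : s = []
        · left
          rw [hs, hs0, List.append_nil]; exact hx
        by_cases hp0 : p = []
        · right
          rw [hp0, List.append_nil] at hp
          refine ⟨⟨x, [], hx, by rw [hs, hp]; simp⟩, ?_⟩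
          exact h.sf_tail hUw x [] (by rw [hs, hp]; simp)
        exfalso
        have hl : s.length < g1.length := by
          refine h.inside (z := c ++ u ++ x) hp ?_
          rw [hs] at hUw
          simpa using hUw
        rcases h4 with h4 | ⟨⟨x', t', hx', e'⟩, _⟩
        · refine h.inside' hp hs0 hp0 hl (t := t) (x' := v) (s := []) h4 (by rw [hp']; simp) ?_
          intro hlt
          rw [hp', List.length_append] at hlt
          omega
        · refine h.inside' hp hs0 hp0 hl (t := t) (x' := x') (s := y ++ t') hx' ?_ ?_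
          · rw [← hp', e']
          · intro _
            exact ⟨t', rfl⟩

theorem freeSub (h : Marker X d D y g1 g2) : FreeSub (M1 X y D) where
  nil := Or.inl (nil_mem_kstar _)
  mul := fun _ _ ha hb => h.mulM ha hb
  stab := fun _ _ _ h1 h2 h3 h4 => h.stabM h1 h2 h3 h4

/-- elements of the base which are in `X∗` are in `X` -/
theorem base_X (h : Marker X d D y g1 g2) {z : List A} (hz : z ∈ Base (M1 X y D))
    (hz' : z ∈ X∗) : z ∈ X := by
  obtain ⟨L, e, hL⟩ := mem_kstar.1 hz'
  cases L with
  | nil => exact absurd (by simpa using e) hz.2.1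
  | cons a L =>
    have ha : a ∈ X := hL a (by simp)
    by_cases hf : L.flatten = []
    · rw [e, List.flatten_cons, hf, List.append_nil]; exact ha
    · exfalso
      refine hz.2.2 a L.flatten (Or.inl (mem_kstar_of_mem ha))
        (Or.inl (join_mem_kstar fun y hy => hL y (by simp [hy]))) ?_ hf (by simpa using e)
      rintro rfl
      exact h.code.1 ha

theorem X_base (h : Marker X d D y g1 g2) {x : List A} (hx : x ∈ X) : x ∈ Base (M1 X y D) := by
  refine ⟨Or.inl (mem_kstar_of_mem hx), fun h0 => h.code.1 (h0 ▸ hx), ?_⟩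
  intro a b ha hb ha0 hb0 e
  have hxs : a ++ b ∈ X∗ := e ▸ mem_kstar_of_mem hx
  have ha' : a ∈ X∗ := by
    rcases ha with ha | ⟨ha, _⟩
    · exact ha
    · exact absurd ha (h.not_TT ⟨[], b, by simpa using hxs⟩)
  have hb' : b ∈ X∗ := by
    rcases hb with hb | ⟨hb, _⟩
    · exact hb
    · exact absurd hb (h.not_TT ⟨a, [], by simpa using hxs⟩)
  obtain ⟨m, hm⟩ := kstar_pow ha'
  obtain ⟨n, hn⟩ := kstar_pow hb'
  have h1 := pow_append hm hn
  rw [← e] at h1
  have h2 := eq_of_pow h.code (mem_pow_one hx) h1
  have hm0 : m ≠ 0 := by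
    rintro rfl
    rw [pow_zero] at hm
    exact ha0 hm
  have hn0 : n ≠ 0 := by
    rintro rfl
    rw [pow_zero] at hn
    exact hb0 hn
  omega

/-- the flattening of a list of at least `k` words of the base, `k ≤ D`, has a suffix in `X^k` -/
theorem sf_list (h : Marker X d D y g1 g2) (l : List (List A)) :
    (∀ z ∈ l, z ∈ Base (M1 X y D)) → ∀ k, k ≤ D → k ≤ l.length → Sf X k l.flatten := by
  induction l using List.reverseRecOn with
  | nil =>
    intro _ k _ hk
    have : k = 0 := by simpa using hk
    subst this
    exact ⟨[], [], by rw [pow_zero]; exact nil_mem_one, rfl⟩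
  | append_singleton l z ih =>
    intro hl k hkD hk
    have hz : z ∈ Base (M1 X y D) := hl z (by simp)
    rw [List.flatten_append, List.flatten_singleton]
    by_cases hzs : z ∈ X∗
    · have hzX := h.base_X hz hzs
      cases k with
      | zero => exact ⟨l.flatten ++ z, [], by rw [pow_zero]; exact nil_mem_one, by simp⟩
      | succ k =>
        refine (ih (fun w hw => hl w (by simp [hw])) k (by omega) ?_).append_pow (mem_pow_one hzX)
        simp only [List.length_append, List.length_singleton] at hk
        omega
    · rcases hz.1 with h1 | ⟨_, h1⟩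
      · exact absurd h1 hzs
      · exact (h1.mono hkD).append_left _

/-- Either all words of the list are in `X`, or there is a first one containing `y`. -/
theorem dich (h : Marker X d D y g1 g2) (l : List (List A)) :
    (∀ z ∈ l, z ∈ Base (M1 X y D)) → l.flatten ∈ X ^ l.length ∨
      ∃ x' t', x' ∈ X∗ ∧ l.flatten = x' ++ (y ++ t') := by
  induction l with
  | nil =>
    intro _
    left
    rw [List.length_nil, pow_zero]; exact nil_mem_one
  | cons z l ih =>
    intro hl
    have hz : z ∈ Base (M1 X y D) := hl z (by simp)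
    rw [List.flatten_cons]
    by_cases hzs : z ∈ X∗
    · have hzX := h.base_X hz hzs
      rcases ih (fun w hw => hl w (by simp [hw])) with h1 | ⟨x', t', hx', e⟩
      · left
        rw [List.length_cons, Nat.add_comm]
        exact pow_append (mem_pow_one hzX) h1
      · right
        exact ⟨z ++ x', t', append_mem_kstar hzs hx', by rw [e]; simp⟩
    · right
      rcases hz.1 with h1 | ⟨⟨x', t', hx', e⟩, _⟩
      · exact absurd h1 hzs
      · exact ⟨x', t' ++ l.flatten, hx', by rw [e]; simp⟩

theorem sync_base (h : Marker X d D y g1 g2) :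
    HasSyncDelay (D + y.length + d) (Base (M1 X y D)) := by
  intro n hn n' hn' u v hW
  rw [mem_base_kstar h.freeSub] at hW ⊢
  obtain ⟨l, e1, hl, Hl⟩ := mem_pow.1 hn
  obtain ⟨l', e1', hl', Hl'⟩ := mem_pow.1 hn'
  obtain ⟨x0, hx0⟩ := h.ne
  obtain ⟨c, hc⟩ := pow_nonempty hx0 d
  have hcs : c ∈ X∗ := pow_kstar hc
  have hSn : Sf X D n := by rw [e1]; exact h.sf_list l Hl D le_rfl (by omega)
  have hSun : Sf X D (u ++ n) := hSn.append_left u
  have hSund : Sf X d (u ++ n) := hSun.mono h.hd
  rcases hW with hW | ⟨⟨x, t, hx, e⟩, _⟩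
  · -- all in `X∗`
    left
    refine sync_use h.sync (p := u ++ n) (q := n' ++ v) hSund ?_ (by simpa using hW)
    rcases h.dich l' Hl' with h1 | ⟨x', t', _, e2⟩
    · rw [← e1'] at h1
      exact ((pf_of_pow h1).append_right v).mono (by omega)
    · exfalso
      rw [← e1'] at e2
      exact h.ny (u ++ n ++ x') (t' ++ v) (by rw [e2] at hW; simpa using hW)
  · have e' : (u ++ n) ++ (n' ++ v) = x ++ (y ++ t) := by rw [← e]; simp
    rcases List.append_eq_append_iff.1 e' with ⟨s, hs, hs'⟩ | ⟨s, hs, hs'⟩
    · -- `x = u n s`, `n' v = s y t`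
      left
      rw [hs] at hx
      have hP : Pf X d (s ++ c) := by
        rcases h.dich l' Hl' with h1 | ⟨x', t', hx', e2⟩
        · rw [← e1', hl'] at h1
          obtain ⟨a, ha, b, hb, hab⟩ := pow_split (m := d) (n := D + y.length) (by
            rwa [Nat.add_comm d])
          have hbl : D + y.length ≤ b.length := le_length_of_pow h.code.1 hb
          -- `|a| ≤ |s|`
          have hlen : n'.length < s.length + y.length + 1 := by
            by_contra hcon
            push Not at hcon
            have e3 : s ++ (y ++ t) = n' ++ v := hs'.symm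
            rcases List.append_eq_append_iff.1 e3 with ⟨p, hp, hp'⟩ | ⟨p, hp, hp'⟩
            · rcases List.append_eq_append_iff.1 hp' with ⟨p', hq, _⟩ | ⟨p', hq, _⟩
              · refine h.ny s p' ?_
                have : n' ∈ X∗ := pow_kstar h1
                rw [hp, hq] at this
                simpa using this
              · have h3 := congrArg List.length hp
                have h4 := congrArg List.length hq
                simp only [List.length_append] at h3 h4
                omega
            · have h3 := congrArg List.length hp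
              simp only [List.length_append] at h3
              omega
          have hlen2 := congrArg List.length hab
          rw [List.length_append] at hlen2
          have hD := h.hD
          have e4 : s ++ (y ++ t) = a ++ (b ++ v) := by rw [← hs', hab]; simp
          rcases List.append_eq_append_iff.1 e4 with ⟨p, hp, hp'⟩ | ⟨p, hp, hp'⟩
          · have h3 := congrArg List.length hp
            simp only [List.length_append] at h3
            have : p = [] := List.eq_nil_of_length_eq_zero (by omega)
            rw [this, List.append_nil] at hp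
            rw [← hp]
            exact (pf_of_pow ha).append_right c
          · rw [hp, List.append_assoc]
            exact (pf_of_pow ha).append_right _
        · rw [← e1'] at e2
          have : s = x' := by
            refine h.occ ⟨u ++ n, [], by simpa using hx⟩ hx' (t := t) (t' := t' ++ v) ?_
            rw [← hs', e2]; simp
          rw [this]
          exact (pf_of_pow hc).append_kstar hx'
      refine sync_use h.sync (p := u ++ n) (q := s ++ c) hSund hP ?_
      have := append_mem_kstar hx hcs
      simpa using this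
    · -- `u n = x s`, `y t = s n' v`
      rcases List.append_eq_append_iff.1 hs' with ⟨p, hp, hp'⟩ | ⟨p, hp, hp'⟩
      · right
        exact ⟨⟨x, p, hx, by rw [hs, hp]⟩, hSun⟩
      · by_cases hs0 : s = []
        · left
          rw [hs, hs0, List.append_nil]; exact hx
        by_cases hp0 : p = []
        · right
          rw [hp0, List.append_nil] at hp
          exact ⟨⟨x, [], hx, by rw [hs, hp]; simp⟩, hSun⟩
        exfalso
        have hl : s.length < g1.length := h.inside (z := x) hp (by rw [← hs]; exact hSun)
        rcases h.dich l' Hl' with h1 | ⟨x', t', hx', e2⟩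
        · rw [← e1'] at h1
          refine h.inside' hp hs0 hp0 hl (t := t) (x' := n') (s := v) (pow_kstar h1) ?_ ?_
          · rw [← hp']
          · intro hlt
            have h3 := congrArg List.length hp
            rw [List.length_append] at h3
            have := le_length_of_pow h.code.1 h1
            omega
        · rw [← e1'] at e2
          refine h.inside' hp hs0 hp0 hl (t := t) (x' := x') (s := y ++ t' ++ v) hx' ?_ ?_
          · rw [← hp', e2]; simp
          · intro _
            exact ⟨t' ++ v, by simp⟩

theorem maxi (h : Marker X d D y g1 g2) : ∃ m, m ∈ M1 X y D ∧ ∀ z, m ++ z ++ m ∈ M1 X y D := by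
  obtain ⟨x0, hx0⟩ := h.ne
  obtain ⟨c, hc⟩ := pow_nonempty hx0 D
  refine ⟨y ++ c, Or.inr ⟨⟨[], c, nil_mem_kstar _, rfl⟩, (sf_of_pow hc).append_left y⟩, ?_⟩
  intro z
  refine Or.inr ⟨⟨[], c ++ z ++ (y ++ c), nil_mem_kstar _, by simp⟩, ?_⟩
  exact ((sf_of_pow hc).append_left y).append_left _

end Marker

theorem M1_regular {X : Language A} (hX : X.IsRegular) (y : List A) (D : ℕ) :
    (M1 X y D).IsRegular := by
  have h1 := isRegular_kstar hX
  have h2 : ((X∗ * (show Language A from {y})) * ⊤).IsRegular :=
    isRegular_mul (isRegular_mul h1 (isRegular_singleton y)) isRegular_top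
  have h3 : (⊤ * X ^ D).IsRegular := isRegular_mul isRegular_top (isRegular_pow hX D)
  have h4 := h1.add (h2.inf h3)
  convert h4 using 1
  apply Language.ext
  intro w
  constructor
  · rintro (h | ⟨⟨x, t, hx, e⟩, ⟨u, q, hq, e'⟩⟩)
    · exact Or.inl h
    · right
      refine ⟨mem_mul.2 ⟨x ++ y, mem_mul.2 ⟨x, hx, y, rfl, rfl⟩, t, trivial, by rw [e]; simp⟩, ?_⟩
      exact mem_mul.2 ⟨u, trivial, q, hq, e'.symm⟩
  · rintro (h | ⟨h1, h2⟩)
    · exact Or.inl h
    · right
      obtain ⟨a, ha, t, _, e⟩ := mem_mul.1 h1
      obtain ⟨x, hx, y', hy', e'⟩ := mem_mul.1 ha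
      obtain ⟨u, _, q, hq, e''⟩ := mem_mul.1 h2
      have hy'' : y' = y := hy'
      refine ⟨⟨x, t, hx, ?_⟩, u, q, hq, e''.symm⟩
      rw [← e, ← e', hy'']; simp

/-- existence of a marker -/
theorem exists_marker {X : Language A} {x0 : List A} (hX : [] ∉ X) (hx0 : x0 ∈ X) {g : List A}
    (hg : NoFac X g) : ∃ y g1 g2, y = g1 ++ g2 ∧ NoFac X g1 ∧ NoFac X g2 ∧ Unbordered y := by
  -- the first letter of `g`
  have hg0 : g ≠ [] := by
    rintro rfl
    exact hg [] [] (nil_mem_kstar _)
  obtain ⟨a, g', rfl⟩ := List.exists_cons_of_ne_nil hg0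
  -- another letter
  have hb : ∃ b, b ≠ a := by
    by_contra hcon
    push Not at hcon
    have hrep : ∀ w : List A, w = List.replicate w.length a := fun w =>
      List.eq_replicate_iff.2 ⟨rfl, fun b _ => hcon b⟩
    obtain ⟨c, hc⟩ := pow_nonempty hx0 (a :: g').length
    have hcl := le_length_of_pow hX hc
    refine hg [] (List.replicate (c.length - (a :: g').length) a) ?_
    have : [] ++ a :: g' ++ List.replicate (c.length - (a :: g').length) a = c := by
      rw [hrep c, hrep (a :: g')]
      simp only [List.length_replicate, List.nil_append]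
      rw [List.replicate_append_replicate]
      congr 1
      simp only [List.length_cons, List.length_replicate] at hcl ⊢
      omega
    rw [this]
    exact pow_kstar hc
  obtain ⟨b, hb⟩ := hb
  let n := (a :: g' ++ (a :: g' ++ [a])).length
  refine ⟨(a :: g' ++ (a :: g' ++ [a])) ++ List.replicate n b, a :: g',
    (a :: g' ++ [a]) ++ List.replicate n b, by simp, hg, ?_, ?_⟩
  · have := hg.mono [] ([a] ++ List.replicate n b)
    simpa using this
  · intro z p q h1 h2
    by_contra hcon
    push Not at hcon
    obtain ⟨hz, hp⟩ := hcon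
    obtain ⟨z0, z', rfl⟩ := List.exists_cons_of_ne_nil hz
    have hz0 : z0 = a := by
      have := h1
      simp only [List.cons_append] at this
      exact ((List.cons.inj this).1).symm
    subst hz0
    -- compare with the suffix
    rcases List.append_eq_append_iff.1 h2 with ⟨c, hc, hc'⟩ | ⟨c, hc, hc'⟩
    · -- `z` inside the block of `b`
      have : z0 ∈ List.replicate n b := by rw [hc']; simp
      exact hb (List.eq_of_mem_replicate this).symm
    · -- `z = c ++ b^n`
      have hl1 := congrArg List.length h1
      have hl2 := congrArg List.length h2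
      have hlc := congrArg List.length hc
      have hlc' := congrArg List.length hc'
      simp only [List.length_append, List.length_replicate] at hl1 hl2 hlc hlc'
      have hn : n = (z0 :: g' ++ (z0 :: g' ++ [z0])).length := rfl
      simp only [List.length_append] at hn
      have hppos := List.length_pos_iff.2 hp
      -- the letter at position `n - 1`
      have e1 : ((z0 :: g' ++ (z0 :: g' ++ [z0])) ++ List.replicate n b)[n - 1]? = some z0 := by
        have : n - 1 = (z0 :: g' ++ (z0 :: g')).length := by
          simp only [List.length_append, List.length_cons, List.length_nil] at hn ⊢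
          omega
        rw [this]
        have e2 : (z0 :: g' ++ (z0 :: g' ++ [z0])) ++ List.replicate n b =
            (z0 :: g' ++ (z0 :: g')) ++ (z0 :: List.replicate n b) := by simp
        rw [e2, List.getElem?_append_right le_rfl]
        simp
      have e3 : ((z0 :: z') ++ p)[n - 1]? = some b := by
        rw [hc', List.append_assoc]
        simp only [List.length_cons, List.length_nil] at hn hl1 hl2 hlc hlc'
        rw [List.getElem?_append_right (by omega), List.getElem?_append_left (by
          rw [List.length_replicate]; omega), List.getElem?_replicate, if_pos (by omega)]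
      rw [h1, e3] at e1
      exact hb (Option.some.inj e1)

/-- **One-sided version.** -/
theorem main_one (X : Language A) (hreg : X.IsRegular) (hX : IsCode X)
    (hs : ∃ d, HasSyncDelay d X) :
    ∃ Y : Language A, X ≤ Y ∧ Y.IsRegular ∧ IsMaximalCode Y ∧ IsComplete Y ∧
      ∃ e, HasSyncDelay e Y := by
  obtain ⟨d, hs⟩ := hs
  by_cases hne : ∃ x, x ∈ X
  · obtain ⟨x0, hx0⟩ := hne
    by_cases hcomp : IsComplete X
    · refine ⟨X, le_rfl, hreg, ⟨hX, ?_⟩, hcomp, d, hs⟩
      intro Z hZ hle
      apply le_antisymm _ hle
      intro z hz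
      obtain ⟨c, hc⟩ := pow_nonempty hx0 d
      have hcs : c ∈ X∗ := pow_kstar hc
      obtain ⟨u, v, huv⟩ := hcomp (c ++ c ++ z ++ c ++ c)
      have h1 : u ++ c ∈ X∗ := by
        refine sync_use hs (p := u ++ c) (q := c ++ z ++ c ++ c ++ v)
          ((sf_of_pow hc).append_left u) ?_ (by simpa using huv)
        have := (pf_of_pow hc).append_right (z ++ c ++ c ++ v)
        simpa using this
      have h2 : u ++ c ++ c ++ z ++ c ∈ X∗ := by
        refine sync_use hs (p := u ++ c ++ c ++ z ++ c) (q := c ++ v)
          ((sf_of_pow hc).append_left _) ((pf_of_pow hc).append_right v) (by simpa using huv)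
      obtain ⟨L1, e1, H1⟩ := mem_kstar.1 h1
      obtain ⟨L2, e2, H2⟩ := mem_kstar.1 hcs
      obtain ⟨L3, e3, H3⟩ := mem_kstar.1 h2
      have e : (L1 ++ L2 ++ [z] ++ L2).flatten = L3.flatten := by
        rw [← e3]
        simp only [List.flatten_append, List.flatten_singleton]
        rw [← e1, ← e2]
      have := hZ.2 _ _ ?_ (fun x hx => hle (H3 x hx)) e
      · exact H3 z (by rw [← this]; simp)
      · intro x hx
        simp only [List.mem_append, List.mem_singleton] at hx
        rcases hx with ((hx | hx) | rfl) | hx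
        · exact hle (H1 x hx)
        · exact hle (H2 x hx)
        · exact hz
        · exact hle (H2 x hx)
    · unfold IsComplete at hcomp
      push Not at hcomp
      obtain ⟨g, hg⟩ := hcomp
      obtain ⟨y, g1, g2, hy, hg1, hg2, hyu⟩ := exists_marker hX.1 hx0 hg
      have hm : Marker X d (d + y.length + 1) y g1 g2 :=
        ⟨hX, hs, hy, hg1, hg2, hyu, by omega, by omega, x0, hx0⟩
      obtain ⟨m, hm1, hm2⟩ := hm.maxi
      exact ⟨Base (M1 X y (d + y.length + 1)), fun x hx => hm.X_base hx,
        base_regular (M1_regular hreg y _), base_maximal hm.freeSub hm1 hm2,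
        base_complete hm.freeSub hm2, _, hm.sync_base⟩
  · have hfree : FreeSub (⊤ : Language A) :=
      ⟨trivial, fun _ _ _ _ => trivial, fun _ _ _ _ _ _ _ => trivial⟩
    refine ⟨Base ⊤, ?_, base_regular isRegular_top,
      base_maximal hfree (m := []) trivial (fun _ => trivial),
      base_complete hfree (m := []) (fun _ => trivial), 0, ?_⟩
    · intro x hx
      exact absurd ⟨x, hx⟩ hne
    · intro x _ y _ u v _
      rw [mem_base_kstar hfree]
      trivial

end Pool.Agent.J4.H60.BSD
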