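import Mathlib
import Pool.Agent.J4.H60.BSD.Base

set_option autoImplicit false

/-! The completion for the two-sided definition of the synchronization delay. -/

namespace Pool.Agent.J4.H60.BSD

open Language Computability

variable {A : Type}

/-- a word of `X^m` has no factor in `X^n` if `n > m + 2d` -/
theorem factor_bound {X : Language A} (hX : IsCode X) {d : ℕ} (hs : HasTwoSidedSyncDelay d X)
    {m n : ℕ} {a z b : List A} (hz : z ∈ X ^ n) (h : a ++ z ++ b ∈ X ^ m) : n ≤ m + 2 * d := by
  by_contra hcon
  push Not at hcon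
  obtain ⟨k, rfl⟩ : ∃ k, n = d + (k + d) := ⟨n - 2 * d, by omega⟩
  obtain ⟨z1, hz1, z23, hz23, rfl⟩ := pow_split hz
  obtain ⟨z2, hz2, z3, hz3, rfl⟩ := pow_split hz23
  have hw := pow_kstar h
  have h1 := sync_use_two hs (p := a ++ z1) (q := z2 ++ z3 ++ b) ((sf_of_pow hz1).append_left a)
    (((pf_of_pow hz23).mono (by omega)).append_right b) (by simpa using hw)
  have hz12 : z1 ++ z2 ∈ X ^ (d + k) := pow_append hz1 hz2
  have h2 := sync_use_two hs (p := a ++ (z1 ++ z2)) (q := z3 ++ b)
    (((sf_of_pow hz12).mono (by omega)).append_left a) ((pf_of_pow hz3).append_right b)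
    (by simpa using hw)
  obtain ⟨i, hi⟩ := kstar_pow h1.1
  obtain ⟨j, hj⟩ := kstar_pow h2.2
  have h3 : (a ++ z1) ++ (z2 ++ (z3 ++ b)) ∈ X ^ (i + (k + j)) := pow_append hi (pow_append hz2 hj)
  have h4 : a ++ (z1 ++ (z2 ++ z3)) ++ b ∈ X ^ (i + (k + j)) := by simpa using h3
  have := eq_of_pow hX h h4
  omega

/-- The data of the construction. -/
structure Data (X : Language A) (d D : ℕ) : Prop where
  code : IsCode X
  sync : HasTwoSidedSyncDelay d X
  hD : 4 * d + 2 ≤ D
  ne : ∃ x, x ∈ X

/-- The submonoid `X∗ ∪ (X^D A∗ ∩ A∗ X^D)`. -/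
def M2 (X : Language A) (D : ℕ) : Language A :=
  {w | w ∈ X∗ ∨ (Pf X D w ∧ Sf X D w)}

namespace Data

variable {X : Language A} {d D : ℕ}

theorem bound (h : Data X d D) {m n : ℕ} {a z b : List A} (hz : z ∈ X ^ n)
    (h' : a ++ z ++ b ∈ X ^ m) : n ≤ m + 2 * d := factor_bound h.code h.sync hz h'

theorem c_sf {c m : List A} (hc : c ∈ X ^ D) (hm : m ∈ M2 X D) : Sf X D (c ++ m) := by
  rcases hm with hm | ⟨_, hm⟩
  · exact (sf_of_pow hc).append_kstar hm
  · exact hm.append_left c

theorem c_pf {c m : List A} (hc : c ∈ X ^ D) (hm : m ∈ M2 X D) : Pf X D (m ++ c) := by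
  rcases hm with hm | ⟨hm, _⟩
  · exact (pf_of_pow hc).append_kstar hm
  · exact hm.append_right c

theorem mulM {a b : List A} (ha : a ∈ M2 X D) (hb : b ∈ M2 X D) : a ++ b ∈ M2 X D := by
  rcases ha with ha | ⟨ha, ha'⟩
  · rcases hb with hb | ⟨hb, hb'⟩
    · exact Or.inl (append_mem_kstar ha hb)
    · exact Or.inr ⟨hb.append_kstar ha, hb'.append_left a⟩
  · right
    refine ⟨ha.append_right b, ?_⟩
    rcases hb with hb | ⟨_, hb⟩
    · exact ha'.append_kstar hb
    · exact hb.append_left _

/-- the heart of the construction -/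
theorem core (h : Data X d D) {U w V : List A} (hU : Sf X D U) (hUw : Sf X D (U ++ w))
    (hwV : Pf X D (w ++ V)) (hV : Pf X D V) : w ∈ M2 X D := by
  have hD := h.hD
  obtain ⟨a', r, hr, eU⟩ := hU
  obtain ⟨a, q, hq, eUw⟩ := hUw
  obtain ⟨p, b, hp, ewV⟩ := hwV
  obtain ⟨s, b', hs, eV⟩ := hV
  have hrs := pow_kstar hr
  have hqs := pow_kstar hq
  have hps := pow_kstar hp
  have hss := pow_kstar hs
  obtain ⟨q1, hq1, q2, hq2, hq12⟩ := pow_split (m := D - d) (n := d) (by
    rwa [Nat.sub_add_cancel (by omega)] : q ∈ X ^ (D - d + d))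
  obtain ⟨p1, hp1, p2, hp2, hp12⟩ := pow_split (m := d) (n := D - d) (by
    rwa [Nat.add_sub_cancel' (by omega)] : p ∈ X ^ (d + (D - d)))
  rcases List.append_eq_append_iff.1 eUw with ⟨c1, hc1, hc1'⟩ | ⟨c1, hc1, hc1'⟩
  · -- `a = U ++ c1`, `w = c1 ++ q`
    rcases List.append_eq_append_iff.1 ewV with ⟨c2, hc2, hc2'⟩ | ⟨c2, hc2, hc2'⟩
    · -- `p = w ++ c2`
      left
      have h1 := sync_use_two h.sync (p := c1 ++ q1) (q := q2 ++ c2)
        (((sf_of_pow hq1).mono (by omega)).append_left c1) ((pf_of_pow hq2).append_right c2) (by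
          rw [hc2, hc1', hq12] at hps; simpa using hps)
      have := append_mem_kstar h1.1 (pow_kstar hq2)
      rw [hc1', hq12]
      simpa using this
    · -- `w = p ++ c2`
      right
      exact ⟨⟨p, c2, hp, hc2⟩, ⟨c1, q, hq, hc1'⟩⟩
  · -- `U = a ++ c1`, `q = c1 ++ w`
    rcases List.append_eq_append_iff.1 ewV with ⟨c2, hc2, hc2'⟩ | ⟨c2, hc2, hc2'⟩
    · -- `p = w ++ c2`, `V = c2 ++ b`
      left
      rw [hc1] at eU
      rw [hc2'] at eV
      rcases List.append_eq_append_iff.1 eV with ⟨e', he', _⟩ | ⟨e', he', _⟩
      · -- `s = c2 ++ e'`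
        rcases List.append_eq_append_iff.1 eU with ⟨e, _, he⟩ | ⟨e, _, he⟩
        · -- `c1 = e ++ r`
          have h1 := sync_use_two h.sync (p := e ++ r) (q := p ++ e')
            (((sf_of_pow hr).mono (by omega)).append_left e)
            (((pf_of_pow hp).mono (by omega)).append_right e') (by
              have := append_mem_kstar hqs hss
              rw [hc1', he', he] at this
              rw [hc2]
              simpa using this)
          refine stab_kstar h.code h1.1 (v := s) ?_ ?_ hss
          · rw [hc1', he] at hqs; simpa using hqs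
          · have := h1.2
            rw [hc2] at this
            rw [he']
            simpa using this
        · -- `r = e ++ c1`
          have h1 := sync_use_two h.sync (p := e ++ q1) (q := q2 ++ c2)
            (((sf_of_pow hq1).mono (by omega)).append_left e)
            ((pf_of_pow hq2).append_right c2) (by
              have := append_mem_kstar hrs hps
              rw [he, hc2] at this
              have e5 : e ++ q1 ++ (q2 ++ c2) = e ++ c1 ++ (w ++ c2) := by
                have : q1 ++ q2 = c1 ++ w := by rw [← hq12, hc1']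
                calc e ++ q1 ++ (q2 ++ c2) = e ++ (q1 ++ q2) ++ c2 := by simp
                  _ = e ++ (c1 ++ w) ++ c2 := by rw [this]
                  _ = _ := by simp
              rw [e5]; exact this)
          have e6 : c1 ++ w = q1 ++ q2 := by rw [← hq12, hc1']
          rcases List.append_eq_append_iff.1 e6 with ⟨w1, hw1, hw1'⟩ | ⟨f, hf, hf'⟩
          · -- `q1 = c1 ++ w1`, `w = w1 ++ q2`
            have hw1s : w1 ∈ X∗ := by
              refine stab_kstar h.code (u := r) (v := q2 ++ c2) hrs ?_ ?_ h1.2
              · have := h1.1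
                rw [hw1] at this
                rw [he]; simpa using this
              · have := hps
                rw [hc2, hw1'] at this
                simpa using this
            rw [hw1']
            exact append_mem_kstar hw1s (pow_kstar hq2)
          · -- `c1 = q1 ++ f`, `q2 = f ++ w`
            have h2 := sync_use_two h.sync (p := c1 ++ p1) (q := p2 ++ e')
              ((sf_of_pow hp1).append_left c1)
              (((pf_of_pow hp2).mono (by omega)).append_right e') (by
                have := append_mem_kstar hqs hss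
                rw [hc1', he'] at this
                have e5 : c1 ++ p1 ++ (p2 ++ e') = c1 ++ w ++ (c2 ++ e') := by
                  have : p1 ++ p2 = w ++ c2 := by rw [← hp12, hc2]
                  calc c1 ++ p1 ++ (p2 ++ e') = c1 ++ (p1 ++ p2) ++ e' := by simp
                    _ = c1 ++ (w ++ c2) ++ e' := by rw [this]
                    _ = _ := by simp
                rw [e5]; exact this)
            have e7 : w ++ c2 = p1 ++ p2 := by rw [← hp12, hc2]
            rcases List.append_eq_append_iff.1 e7 with ⟨f', hf1, hf1'⟩ | ⟨w2, hw2, hw2'⟩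
            · -- `p1 = w ++ f'`, `c2 = f' ++ p2`
              have hc2P : Pf X d c2 := by
                obtain ⟨s1, hs1, s2, hs2, hs12⟩ := pow_split (m := d) (n := D - d) (by
                  rwa [Nat.add_sub_cancel' (by omega)] : s ∈ X ^ (d + (D - d)))
                have e8 : c2 ++ e' = s1 ++ s2 := by rw [← hs12, he']
                rcases List.append_eq_append_iff.1 e8 with ⟨g, hg, _⟩ | ⟨g, hg, _⟩
                · exfalso
                  rw [hg, hf1'] at hs1
                  have := h.bound hp2 (a := f') (b := g) hs1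
                  omega
                · exact ⟨s1, g, hs1, hg⟩
              have h3 := sync_use_two h.sync (p := e ++ q) (q := c2)
                (((sf_of_pow hq).mono (by omega)).append_left e) hc2P (by
                  have := append_mem_kstar hrs hps
                  rw [he, hc2] at this
                  rw [hc1']
                  simpa using this)
              refine stab_kstar h.code (u := r) (v := c2) hrs ?_ (hc2 ▸ hps) h3.2
              have := h3.1
              rw [hc1'] at this
              rw [he]; simpa using this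
            · -- `w = p1 ++ w2`, `p2 = w2 ++ c2`
              have hw2s : w2 ∈ X∗ := by
                refine stab_kstar h.code (u := c1 ++ p1) (v := s) h2.1 ?_ ?_ hss
                · have := hqs
                  rw [hc1', hw2] at this
                  simpa using this
                · have := h2.2
                  rw [hw2'] at this
                  rw [he']; simpa using this
              rw [hw2]
              exact append_mem_kstar (pow_kstar hp1) hw2s
      · -- `c2 = s ++ e'`
        rcases List.append_eq_append_iff.1 eU with ⟨e, _, he⟩ | ⟨e, _, he⟩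
        · -- `c1 = e ++ r`
          have hP : Pf X d (w ++ s) := by
            have e8 : (w ++ s) ++ e' = p1 ++ p2 := by rw [← hp12, hc2, he']; simp
            rcases List.append_eq_append_iff.1 e8 with ⟨g, hg, _⟩ | ⟨g, hg, _⟩
            · exfalso
              rw [hg] at hp1
              have := h.bound hs (a := w) (b := g) hp1
              omega
            · exact ⟨p1, g, hp1, hg⟩
          have h1 := sync_use_two h.sync (p := e ++ r) (q := w ++ s)
            (((sf_of_pow hr).mono (by omega)).append_left e) hP (by
              have := append_mem_kstar hqs hss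
              rw [hc1', he] at this
              simpa using this)
          refine stab_kstar h.code h1.1 (v := s) ?_ h1.2 hss
          rw [hc1', he] at hqs; simpa using hqs
        · -- `r = e ++ c1`
          have h1 := sync_use_two h.sync (p := e ++ q) (q := s ++ e')
            (((sf_of_pow hq).mono (by omega)).append_left e)
            (((pf_of_pow hs).mono (by omega)).append_right e') (by
              have := append_mem_kstar hrs hps
              rw [he, hc2, he'] at this
              rw [hc1']
              simpa using this)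
          refine stab_kstar h.code (u := r) (v := s ++ e') hrs ?_ ?_ h1.2
          · have := h1.1
            rw [hc1'] at this
            rw [he]; simpa using this
          · rw [hc2, he'] at hps; exact hps
    · -- `w = p ++ c2`
      left
      have h1 := sync_use_two h.sync (p := c1 ++ p1) (q := p2 ++ c2)
        ((sf_of_pow hp1).append_left c1) (((pf_of_pow hp2).mono (by omega)).append_right c2) (by
          rw [hc1', hc2, hp12] at hqs; simpa using hqs)
      have := append_mem_kstar (pow_kstar hp1) h1.2
      rw [hc2, hp12]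
      simpa using this

theorem stabM (h : Data X d D) {u w v : List A} (h1 : u ∈ M2 X D)
    (h2 : u ++ w ∈ M2 X D) (h3 : w ++ v ∈ M2 X D) (h4 : v ∈ M2 X D) : w ∈ M2 X D := by
  obtain ⟨x0, hx0⟩ := h.ne
  obtain ⟨c, hc⟩ := pow_nonempty hx0 D
  refine h.core (U := c ++ u) (V := v ++ c) (c_sf hc h1) ?_ ?_ (c_pf hc h4)
  · have := c_sf hc h2
    simpa using this
  · have := c_pf hc h3
    simpa using this

theorem freeSub (h : Data X d D) : FreeSub (M2 X D) where
  nil := Or.inl (nil_mem_kstar _)
  mul := fun _ _ ha hb => mulM ha hb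
  stab := fun _ _ _ h1 h2 h3 h4 => h.stabM h1 h2 h3 h4

theorem base_X (h : Data X d D) {z : List A} (hz : z ∈ Base (M2 X D)) (hz' : z ∈ X∗) : z ∈ X := by
  obtain ⟨L, e, hL⟩ := mem_kstar.1 hz'
  cases L with
  | nil => exact absurd (by simpa using e) hz.2.1
  | cons a L =>
    have ha : a ∈ X := hL a (by simp)
    by_cases hf : L.flatten = []
    · rw [e, List.flatten_cons, hf, List.append_nil]; exact ha
    · exfalso
      refine hz.2.2 a L.flatten (Or.inl (mem_kstar_of_mem ha))
        (Or.inl (join_mem_kstar fun y hy => hL y (by simp [hy]))) ?_ hf (by simpa using e)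
      rintro rfl
      exact h.code.1 ha

theorem X_base (h : Data X d D) {x : List A} (hx : x ∈ X) : x ∈ Base (M2 X D) := by
  have hD := h.hD
  refine ⟨Or.inl (mem_kstar_of_mem hx), fun h0 => h.code.1 (h0 ▸ hx), ?_⟩
  intro a b ha hb ha0 hb0 e
  have hxs : a ++ b ∈ X ^ 1 := e ▸ mem_pow_one hx
  have ha' : a ∈ X∗ := by
    rcases ha with ha | ⟨⟨z, t, hz, rfl⟩, _⟩
    · exact ha
    · exfalso
      have := h.bound hz (a := []) (b := t ++ b) (m := 1) (by simpa using hxs)
      omega
  have hb' : b ∈ X∗ := by
    rcases hb with hb | ⟨⟨z, t, hz, rfl⟩, _⟩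
    · exact hb
    · exfalso
      have := h.bound hz (a := a) (b := t) (m := 1) (by simpa using hxs)
      omega
  obtain ⟨m, hm⟩ := kstar_pow ha'
  obtain ⟨n, hn⟩ := kstar_pow hb'
  have h2 := eq_of_pow h.code hxs (pow_append hm hn)
  have hm0 : m ≠ 0 := by
    rintro rfl
    rw [pow_zero] at hm
    exact ha0 hm
  have hn0 : n ≠ 0 := by
    rintro rfl
    rw [pow_zero] at hn
    exact hb0 hn
  omega

theorem sf_list (h : Data X d D) (l : List (List A)) :
    (∀ z ∈ l, z ∈ Base (M2 X D)) → ∀ k, k ≤ D → k ≤ l.length → Sf X k l.flatten := by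
  induction l using List.reverseRecOn with
  | nil =>
    intro _ k _ hk
    have : k = 0 := by simpa using hk
    subst this
    exact ⟨[], [], by rw [pow_zero]; exact nil_mem_one, rfl⟩
  | append_singleton l z ih =>
    intro hl k hkD hk
    have hz : z ∈ Base (M2 X D) := hl z (by simp)
    rw [List.flatten_append, List.flatten_singleton]
    by_cases hzs : z ∈ X∗
    · have hzX := h.base_X hz hzs
      cases k with
      | zero => exact ⟨l.flatten ++ z, [], by rw [pow_zero]; exact nil_mem_one, by simp⟩
      | succ k =>
        refine (ih (fun w hw => hl w (by simp [hw])) k (by omega) ?_).append_pow (mem_pow_one hzX)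
        simp only [List.length_append, List.length_singleton] at hk
        omega
    · rcases hz.1 with h1 | ⟨_, h1⟩
      · exact absurd h1 hzs
      · exact (h1.mono hkD).append_left _

theorem pf_list (h : Data X d D) (l : List (List A)) :
    (∀ z ∈ l, z ∈ Base (M2 X D)) → ∀ k, k ≤ D → k ≤ l.length → Pf X k l.flatten := by
  induction l with
  | nil =>
    intro _ k _ hk
    have : k = 0 := by simpa using hk
    subst this
    exact ⟨[], [], by rw [pow_zero]; exact nil_mem_one, rfl⟩
  | cons z l ih =>
    intro hl k hkD hk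
    have hz : z ∈ Base (M2 X D) := hl z (by simp)
    rw [List.flatten_cons]
    by_cases hzs : z ∈ X∗
    · have hzX := h.base_X hz hzs
      cases k with
      | zero => exact ⟨[], z ++ l.flatten, by rw [pow_zero]; exact nil_mem_one, rfl⟩
      | succ k =>
        have := (ih (fun w hw => hl w (by simp [hw])) k (by omega) (by
          simp only [List.length_cons] at hk; omega)).append_pow (mem_pow_one hzX)
        rwa [Nat.add_comm] at this
    · rcases hz.1 with h1 | ⟨h1, _⟩
      · exact absurd h1 hzs
      · exact (h1.mono hkD).append_right _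

theorem sync_base (h : Data X d D) : HasTwoSidedSyncDelay D (Base (M2 X D)) := by
  have hD := h.hD
  intro n hn n' hn' u v hW
  rw [mem_base_kstar h.freeSub] at hW
  rw [mem_base_kstar h.freeSub, mem_base_kstar h.freeSub]
  obtain ⟨l, e1, hl, Hl⟩ := mem_pow.1 hn
  obtain ⟨l', e1', hl', Hl'⟩ := mem_pow.1 hn'
  have hSn : Sf X D n := by rw [e1]; exact h.sf_list l Hl D le_rfl (by omega)
  have hPn' : Pf X D n' := by rw [e1']; exact h.pf_list l' Hl' D le_rfl (by omega)
  have hSun : Sf X D (u ++ n) := hSn.append_left u
  have hPnv : Pf X D (n' ++ v) := hPn'.append_right v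
  rcases hW with hW | ⟨hW1, hW2⟩
  · have := sync_use_two h.sync (p := u ++ n) (q := n' ++ v) (hSun.mono (by omega))
      (hPnv.mono (by omega)) (by simpa using hW)
    exact ⟨Or.inl this.1, Or.inl this.2⟩
  · constructor
    · obtain ⟨p, b, hp, e⟩ := hW1
      have e' : (u ++ n) ++ (n' ++ v) = p ++ b := by rw [← e]; simp
      rcases List.append_eq_append_iff.1 e' with ⟨c, hc, _⟩ | ⟨c, hc, _⟩
      · -- `p = u n c`
        left
        obtain ⟨n0, q, hq, hnq⟩ := hSn
        obtain ⟨q1, hq1, q2, hq2, hq12⟩ := pow_split (m := D - d) (n := d) (by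
          rwa [Nat.sub_add_cancel (by omega)] : q ∈ X ^ (D - d + d))
        have h1 := sync_use_two h.sync (p := u ++ n0 ++ q1) (q := q2 ++ c)
          (((sf_of_pow hq1).mono (by omega)).append_left _) ((pf_of_pow hq2).append_right c) (by
            have := pow_kstar hp
            rw [hc, hnq, hq12] at this
            simpa using this)
        have := append_mem_kstar h1.1 (pow_kstar hq2)
        rw [hnq, hq12]
        simpa using this
      · right
        exact ⟨⟨p, c, hp, hc⟩, hSun⟩
    · obtain ⟨a, q, hq, e⟩ := hW2
      have e' : (u ++ n) ++ (n' ++ v) = a ++ q := by rw [← e]; simp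
      rcases List.append_eq_append_iff.1 e' with ⟨c, _, hc⟩ | ⟨c, _, hc⟩
      · right
        exact ⟨hPnv, ⟨c, q, hq, hc⟩⟩
      · -- `q = c n' v`
        left
        obtain ⟨p, n0, hp, hnp⟩ := hPn'
        obtain ⟨p1, hp1, p2, hp2, hp12⟩ := pow_split (m := d) (n := D - d) (by
          rwa [Nat.add_sub_cancel' (by omega)] : p ∈ X ^ (d + (D - d)))
        have h1 := sync_use_two h.sync (p := c ++ p1) (q := p2 ++ n0 ++ v)
          ((sf_of_pow hp1).append_left _) (by
            have := ((pf_of_pow hp2).mono (show d ≤ D - d by omega)).append_right (n0 ++ v)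
            simpa using this) (by
            have := pow_kstar hq
            rw [hc, hnp, hp12] at this
            simpa using this)
        have := append_mem_kstar (pow_kstar hp1) h1.2
        rw [hnp, hp12]
        simpa using this

theorem maxi (h : Data X d D) : ∃ m, m ∈ M2 X D ∧ ∀ z, m ++ z ++ m ∈ M2 X D := by
  obtain ⟨x0, hx0⟩ := h.ne
  obtain ⟨c, hc⟩ := pow_nonempty hx0 D
  refine ⟨c, Or.inl (pow_kstar hc), fun z => Or.inr ⟨?_, ?_⟩⟩
  · have := (pf_of_pow hc).append_right (z ++ c)
    simpa using this
  · exact (sf_of_pow hc).append_left _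

end Data

theorem M2_regular {X : Language A} (hX : X.IsRegular) (D : ℕ) : (M2 X D).IsRegular := by
  have h1 := isRegular_kstar hX
  have h2 : (X ^ D * ⊤).IsRegular := isRegular_mul (isRegular_pow hX D) isRegular_top
  have h3 : (⊤ * X ^ D).IsRegular := isRegular_mul isRegular_top (isRegular_pow hX D)
  have h4 := h1.add (h2.inf h3)
  convert h4 using 1
  apply Language.ext
  intro w
  constructor
  · rintro (h | ⟨⟨p, t, hp, e⟩, ⟨u, q, hq, e'⟩⟩)
    · exact Or.inl h
    · right
      exact ⟨mem_mul.2 ⟨p, hp, t, trivial, e.symm⟩, mem_mul.2 ⟨u, trivial, q, hq, e'.symm⟩⟩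
  · rintro (h | ⟨h1, h2⟩)
    · exact Or.inl h
    · right
      obtain ⟨p, hp, t, _, e⟩ := mem_mul.1 h1
      obtain ⟨u, _, q, hq, e''⟩ := mem_mul.1 h2
      exact ⟨⟨p, t, hp, e.symm⟩, ⟨u, q, hq, e''.symm⟩⟩

/-- **Two-sided version.** -/
theorem main_two (X : Language A) (hreg : X.IsRegular) (hX : IsCode X) (d : ℕ)
    (hs : HasTwoSidedSyncDelay d X) :
    ∃ Y : Language A, X ≤ Y ∧ Y.IsRegular ∧ IsMaximalCode Y ∧ IsComplete Y ∧
      HasTwoSidedSyncDelay (4 * d + 2) Y := by
  by_cases hne : ∃ x, x ∈ X
  · have h : Data X d (4 * d + 2) := ⟨hX, hs, le_rfl, hne⟩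
    obtain ⟨m, hm1, hm2⟩ := h.maxi
    exact ⟨Base (M2 X (4 * d + 2)), fun x hx => h.X_base hx, base_regular (M2_regular hreg _),
      base_maximal h.freeSub hm1 hm2, base_complete h.freeSub hm2, h.sync_base⟩
  · have hfree : FreeSub (⊤ : Language A) :=
      ⟨trivial, fun _ _ _ _ => trivial, fun _ _ _ _ _ _ _ => trivial⟩
    refine ⟨Base ⊤, ?_, base_regular isRegular_top,
      base_maximal hfree (m := []) trivial (fun _ => trivial),
      base_complete hfree (m := []) (fun _ => trivial), ?_⟩
    · intro x hx
      exact absurd ⟨x, hx⟩ hne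
    · intro x _ y _ u v _
      rw [mem_base_kstar hfree, mem_base_kstar hfree]
      exact ⟨trivial, trivial⟩

end Pool.Agent.J4.H60.BSD
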